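import Mathlib

/-! In every alternative ring an explicit skew element of degree 6 is killed by 6. -/

set_option autoImplicit false

namespace Pool.W415.Alt3

section ident
variable {R : Type*} [NonUnitalNonAssocRing R]

/-- associator -/
def A (a b c : R) : R := (a * b) * c - a * (b * c)

/-- Jordan product -/
def J (a b : R) : R := a * b + b * a

lemma J_add (a b c : R) : J a (b + c) = J a b + J a c := by
  simp only [J, mul_add, add_mul]; abel

lemma J_neg (a b : R) : J a (-b) = -J a b := by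
  simp only [J, mul_neg, neg_mul]; abel

lemma J_zero (a : R) : J a 0 = 0 := by
  simp [J]

lemma A_swap12 (hl : ∀ a b : R, (a * a) * b = a * (a * b)) (a b c : R) :
    A a b c = - A b a c := by
  have h1 := hl (a + b) c
  have h2 := hl a c
  have h3 := hl b c
  simp only [add_mul, mul_add] at h1
  rw [← sub_eq_zero] at h1 h2 h3 ⊢
  have : A a b c - - A b a c = ((a * a * c + b * a * c + (a * b * c + b * b * c)) -
    (a * (a * c) + b * (a * c) + (a * (b * c) + b * (b * c)))) - (a * a * c - a * (a * c)) -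
      (b * b * c - b * (b * c)) := by
    simp only [A]; abel
  rw [this, h2, h3]
  simp only [sub_zero]
  rw [← h1]

lemma A_swap23 (hr : ∀ a b : R, (b * a) * a = b * (a * a)) (a b c : R) :
    A a b c = - A a c b := by
  have h1 := hr (b + c) a
  have h2 := hr b a
  have h3 := hr c a
  simp only [add_mul, mul_add] at h1
  rw [← sub_eq_zero] at h1 h2 h3 ⊢
  have : A a b c - - A a c b = ((a * b * b + a * c * b + (a * b * c + a * c * c)) -
    (a * (b * b) + a * (c * b) + (a * (b * c) + a * (c * c)))) - (a * b * b - a * (b * b)) -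
      (a * c * c - a * (c * c)) := by
    simp only [A]; abel
  rw [this, h2, h3]
  simp only [sub_zero]
  rw [← h1]

/-- Bruck–Kleinfeld function -/
def F (w x y z : R) : R := A (w * x) y z - x * A w y z - A x y z * w

lemma teich (w x y z : R) :
    A (w * x) y z - A w (x * y) z + A w x (y * z) = w * A x y z + A w x y * z := by
  simp only [A, mul_sub, sub_mul]; abel

section alt
variable (hl : ∀ a b : R, (a * a) * b = a * (a * b)) (hr : ∀ a b : R, (b * a) * a = b * (a * a))
include hl hr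

lemma A_rot (a b c : R) : A a b c = A b c a := by
  rw [A_swap12 hl a b c, A_swap23 hr b a c, neg_neg]

lemma F_cyc (w x y z : R) : F w x y z = - F x y z w := by
  have h1 := teich y z w x
  have h2 := teich x y z w
  rw [A_rot hl hr y (z * w) x, ← A_rot hl hr (w * x) y z] at h1
  rw [A_rot hl hr x (y * z) w, ← A_rot hl hr (z * w) x y] at h2
  rw [← sub_eq_zero] at h1 h2 ⊢
  have e1 : A x z w = A z w x := A_rot hl hr x z w
  have e2 : A w y z = A y z w := A_rot hl hr w y z
  have : F w x y z - - F x y z w = (A (y * z) w x - A (z * w) x y + A (w * x) y z -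
      (y * A z w x + A y z w * x)) + (A (x * y) z w - A (y * z) w x + A (z * w) x y -
      (x * A y z w + A x y z * w)) := by
    simp only [F, e1, e2]; abel
  rw [this, h1, h2, add_zero]

omit hl in
lemma F_swap34 (w x y z : R) : F w x y z = - F w x z y := by
  simp only [F]
  rw [A_swap23 hr (w * x) y z, A_swap23 hr w y z, A_swap23 hr x y z]
  simp only [mul_neg, neg_mul]
  abel

lemma F_swap12 (w x y z : R) : F w x y z = - F x w y z := by
  rw [F_cyc hl hr w x y z, F_cyc hl hr x y z w, F_swap34 hr y z w x,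
    F_cyc hl hr y z x w, F_cyc hl hr z x w y, neg_neg, neg_neg]

/-- the associator is a derivation for the Jordan product -/
lemma D1 (a b c d : R) : A (J a b) c d = J a (A b c d) + J b (A a c d) := by
  have h := F_swap12 hl hr a b c d
  rw [← sub_eq_zero] at h ⊢
  have : A (J a b) c d - (J a (A b c d) + J b (A a c d)) = F a b c d - - F b a c d := by
    simp only [F, J, A, add_mul, mul_sub, sub_mul]; abel
  rw [this, h]

lemma D2 (a b c d : R) : A c (J a b) d = J a (A c b d) + J b (A c a d) := by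
  rw [A_swap12 hl c (J a b) d, D1 hl hr, A_swap12 hl b c d, A_swap12 hl a c d, J_neg, J_neg]
  abel

lemma D3 (a b c d : R) : A c d (J a b) = J a (A c d b) + J b (A c d a) := by
  rw [A_swap23 hr c d (J a b), D2 hl hr, A_swap23 hr c b d, A_swap23 hr c a d, J_neg, J_neg]
  abel

/-- symmetrised triple multiplication -/
def S (p q r t : R) : R :=
  J p (J q (J r t)) + J p (J r (J q t)) + J q (J p (J r t)) + J q (J r (J p t)) +
    J r (J p (J q t)) + J r (J q (J p t))

omit hl hr in
lemma S12 (p q r t : R) : S p q r t = S q p r t := by simp only [S]; abel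
omit hl hr in
lemma S23 (p q r t : R) : S p q r t = S p r q t := by simp only [S]; abel
omit hl hr in
lemma S_neg (p q r t : R) : S p q r (-t) = - S p q r t := by simp only [S, J_neg]; abel

lemma E (a a' c c' e e' : R) : (6 : ℤ) • A (J a a') (J c c') (J e e') =
    S a c e (A a' c' e') + S a c e' (A a' c' e) + S a c' e (A a' c e') + S a c' e' (A a' c e) +
    S a' c e (A a c' e') + S a' c e' (A a c' e) + S a' c' e (A a c e') +
      S a' c' e' (A a c e) := by
  have h0 : A (J a a') (J c c') (J e e') =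
      J a (J c (J e (A a' c' e'))) +
      J a (J c (J e' (A a' c' e))) +
      J a (J c' (J e (A a' c e'))) +
      J a (J c' (J e' (A a' c e))) +
      J a' (J c (J e (A a c' e'))) +
      J a' (J c (J e' (A a c' e))) +
      J a' (J c' (J e (A a c e'))) +
      J a' (J c' (J e' (A a c e))) := by
    rw [D1 hl hr a a']; simp only [D2 hl hr c c']; simp only [D3 hl hr e e', J_add]; abel
  have h1 : A (J a a') (J c c') (J e e') =
      J a (J e (J c (A a' c' e'))) +
      J a (J e' (J c (A a' c' e))) +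
      J a (J e (J c' (A a' c e'))) +
      J a (J e' (J c' (A a' c e))) +
      J a' (J e (J c (A a c' e'))) +
      J a' (J e' (J c (A a c' e))) +
      J a' (J e (J c' (A a c e'))) +
      J a' (J e' (J c' (A a c e))) := by
    rw [D1 hl hr a a']; simp only [D3 hl hr e e']; simp only [D2 hl hr c c', J_add]; abel
  have h2 : A (J a a') (J c c') (J e e') =
      J c (J a (J e (A a' c' e'))) +
      J c (J a (J e' (A a' c' e))) +
      J c' (J a (J e (A a' c e'))) +
      J c' (J a (J e' (A a' c e))) +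
      J c (J a' (J e (A a c' e'))) +
      J c (J a' (J e' (A a c' e))) +
      J c' (J a' (J e (A a c e'))) +
      J c' (J a' (J e' (A a c e))) := by
    rw [D2 hl hr c c']; simp only [D1 hl hr a a']; simp only [D3 hl hr e e', J_add]; abel
  have h3 : A (J a a') (J c c') (J e e') =
      J c (J e (J a (A a' c' e'))) +
      J c (J e' (J a (A a' c' e))) +
      J c' (J e (J a (A a' c e'))) +
      J c' (J e' (J a (A a' c e))) +
      J c (J e (J a' (A a c' e'))) +
      J c (J e' (J a' (A a c' e))) +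
      J c' (J e (J a' (A a c e'))) +
      J c' (J e' (J a' (A a c e))) := by
    rw [D2 hl hr c c']; simp only [D3 hl hr e e']; simp only [D1 hl hr a a', J_add]; abel
  have h4 : A (J a a') (J c c') (J e e') =
      J e (J a (J c (A a' c' e'))) +
      J e' (J a (J c (A a' c' e))) +
      J e (J a (J c' (A a' c e'))) +
      J e' (J a (J c' (A a' c e))) +
      J e (J a' (J c (A a c' e'))) +
      J e' (J a' (J c (A a c' e))) +
      J e (J a' (J c' (A a c e'))) +
      J e' (J a' (J c' (A a c e))) := by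
    rw [D3 hl hr e e']; simp only [D1 hl hr a a']; simp only [D2 hl hr c c', J_add]; abel
  have h5 : A (J a a') (J c c') (J e e') =
      J e (J c (J a (A a' c' e'))) +
      J e' (J c (J a (A a' c' e))) +
      J e (J c' (J a (A a' c e'))) +
      J e' (J c' (J a (A a' c e))) +
      J e (J c (J a' (A a c' e'))) +
      J e' (J c (J a' (A a c' e))) +
      J e (J c' (J a' (A a c e'))) +
      J e' (J c' (J a' (A a c e))) := by
    rw [D3 hl hr e e']; simp only [D2 hl hr c c']; simp only [D1 hl hr a a', J_add]; abel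
  have s := congrArg₂ (· + ·) (congrArg₂ (· + ·) (congrArg₂ (· + ·) (congrArg₂ (· + ·)
    (congrArg₂ (· + ·) h0 h1) h2) h3) h4) h5
  generalize A (J a a') (J c c') (J e e') = X at s ⊢
  have h6 : (6 : ℤ) • X = X + X + X + X + X + X := by abel
  rw [h6, s]
  simp only [S]
  abel

/-- the explicit element of degree six -/
def f6 (x1 x2 y1 y2 z1 z2 : R) : R :=
  A (J x1 y1) (J x2 z1) (J y2 z2) - A (J x2 y1) (J x1 z1) (J y2 z2) -
  A (J x1 y2) (J x2 z1) (J y1 z2) + A (J x2 y2) (J x1 z1) (J y1 z2) -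
  A (J x1 y1) (J x2 z2) (J y2 z1) + A (J x2 y1) (J x1 z2) (J y2 z1) +
  A (J x1 y2) (J x2 z2) (J y1 z1) - A (J x2 y2) (J x1 z2) (J y1 z1)

theorem six_f6 (x1 x2 y1 y2 z1 z2 : R) : (6 : ℤ) • f6 x1 x2 y1 y2 z1 z2 = 0 := by
  have s01 : ∀ r t : R, S x2 x1 r t = S x1 x2 r t := fun r t => S12 x2 x1 r t
  have u01 : ∀ r t : R, S r x2 x1 t = S r x1 x2 t := fun r t => S23 r x2 x1 t
  have p01 : ∀ r : R, A x2 x1 r = - A x1 x2 r := fun r => A_swap12 hl x2 x1 r
  have q01 : ∀ r : R, A r x2 x1 = - A r x1 x2 := fun r => A_swap23 hr r x2 x1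
  have s02 : ∀ r t : R, S y1 x1 r t = S x1 y1 r t := fun r t => S12 y1 x1 r t
  have u02 : ∀ r t : R, S r y1 x1 t = S r x1 y1 t := fun r t => S23 r y1 x1 t
  have p02 : ∀ r : R, A y1 x1 r = - A x1 y1 r := fun r => A_swap12 hl y1 x1 r
  have q02 : ∀ r : R, A r y1 x1 = - A r x1 y1 := fun r => A_swap23 hr r y1 x1
  have s03 : ∀ r t : R, S y2 x1 r t = S x1 y2 r t := fun r t => S12 y2 x1 r t
  have u03 : ∀ r t : R, S r y2 x1 t = S r x1 y2 t := fun r t => S23 r y2 x1 t
  have p03 : ∀ r : R, A y2 x1 r = - A x1 y2 r := fun r => A_swap12 hl y2 x1 r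
  have q03 : ∀ r : R, A r y2 x1 = - A r x1 y2 := fun r => A_swap23 hr r y2 x1
  have s04 : ∀ r t : R, S z1 x1 r t = S x1 z1 r t := fun r t => S12 z1 x1 r t
  have u04 : ∀ r t : R, S r z1 x1 t = S r x1 z1 t := fun r t => S23 r z1 x1 t
  have p04 : ∀ r : R, A z1 x1 r = - A x1 z1 r := fun r => A_swap12 hl z1 x1 r
  have q04 : ∀ r : R, A r z1 x1 = - A r x1 z1 := fun r => A_swap23 hr r z1 x1
  have s05 : ∀ r t : R, S z2 x1 r t = S x1 z2 r t := fun r t => S12 z2 x1 r t
  have u05 : ∀ r t : R, S r z2 x1 t = S r x1 z2 t := fun r t => S23 r z2 x1 t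
  have p05 : ∀ r : R, A z2 x1 r = - A x1 z2 r := fun r => A_swap12 hl z2 x1 r
  have q05 : ∀ r : R, A r z2 x1 = - A r x1 z2 := fun r => A_swap23 hr r z2 x1
  have s12 : ∀ r t : R, S y1 x2 r t = S x2 y1 r t := fun r t => S12 y1 x2 r t
  have u12 : ∀ r t : R, S r y1 x2 t = S r x2 y1 t := fun r t => S23 r y1 x2 t
  have p12 : ∀ r : R, A y1 x2 r = - A x2 y1 r := fun r => A_swap12 hl y1 x2 r
  have q12 : ∀ r : R, A r y1 x2 = - A r x2 y1 := fun r => A_swap23 hr r y1 x2
  have s13 : ∀ r t : R, S y2 x2 r t = S x2 y2 r t := fun r t => S12 y2 x2 r t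
  have u13 : ∀ r t : R, S r y2 x2 t = S r x2 y2 t := fun r t => S23 r y2 x2 t
  have p13 : ∀ r : R, A y2 x2 r = - A x2 y2 r := fun r => A_swap12 hl y2 x2 r
  have q13 : ∀ r : R, A r y2 x2 = - A r x2 y2 := fun r => A_swap23 hr r y2 x2
  have s14 : ∀ r t : R, S z1 x2 r t = S x2 z1 r t := fun r t => S12 z1 x2 r t
  have u14 : ∀ r t : R, S r z1 x2 t = S r x2 z1 t := fun r t => S23 r z1 x2 t
  have p14 : ∀ r : R, A z1 x2 r = - A x2 z1 r := fun r => A_swap12 hl z1 x2 r
  have q14 : ∀ r : R, A r z1 x2 = - A r x2 z1 := fun r => A_swap23 hr r z1 x2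
  have s15 : ∀ r t : R, S z2 x2 r t = S x2 z2 r t := fun r t => S12 z2 x2 r t
  have u15 : ∀ r t : R, S r z2 x2 t = S r x2 z2 t := fun r t => S23 r z2 x2 t
  have p15 : ∀ r : R, A z2 x2 r = - A x2 z2 r := fun r => A_swap12 hl z2 x2 r
  have q15 : ∀ r : R, A r z2 x2 = - A r x2 z2 := fun r => A_swap23 hr r z2 x2
  have s23 : ∀ r t : R, S y2 y1 r t = S y1 y2 r t := fun r t => S12 y2 y1 r t
  have u23 : ∀ r t : R, S r y2 y1 t = S r y1 y2 t := fun r t => S23 r y2 y1 t
  have p23 : ∀ r : R, A y2 y1 r = - A y1 y2 r := fun r => A_swap12 hl y2 y1 r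
  have q23 : ∀ r : R, A r y2 y1 = - A r y1 y2 := fun r => A_swap23 hr r y2 y1
  have s24 : ∀ r t : R, S z1 y1 r t = S y1 z1 r t := fun r t => S12 z1 y1 r t
  have u24 : ∀ r t : R, S r z1 y1 t = S r y1 z1 t := fun r t => S23 r z1 y1 t
  have p24 : ∀ r : R, A z1 y1 r = - A y1 z1 r := fun r => A_swap12 hl z1 y1 r
  have q24 : ∀ r : R, A r z1 y1 = - A r y1 z1 := fun r => A_swap23 hr r z1 y1
  have s25 : ∀ r t : R, S z2 y1 r t = S y1 z2 r t := fun r t => S12 z2 y1 r t
  have u25 : ∀ r t : R, S r z2 y1 t = S r y1 z2 t := fun r t => S23 r z2 y1 t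
  have p25 : ∀ r : R, A z2 y1 r = - A y1 z2 r := fun r => A_swap12 hl z2 y1 r
  have q25 : ∀ r : R, A r z2 y1 = - A r y1 z2 := fun r => A_swap23 hr r z2 y1
  have s34 : ∀ r t : R, S z1 y2 r t = S y2 z1 r t := fun r t => S12 z1 y2 r t
  have u34 : ∀ r t : R, S r z1 y2 t = S r y2 z1 t := fun r t => S23 r z1 y2 t
  have p34 : ∀ r : R, A z1 y2 r = - A y2 z1 r := fun r => A_swap12 hl z1 y2 r
  have q34 : ∀ r : R, A r z1 y2 = - A r y2 z1 := fun r => A_swap23 hr r z1 y2
  have s35 : ∀ r t : R, S z2 y2 r t = S y2 z2 r t := fun r t => S12 z2 y2 r t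
  have u35 : ∀ r t : R, S r z2 y2 t = S r y2 z2 t := fun r t => S23 r z2 y2 t
  have p35 : ∀ r : R, A z2 y2 r = - A y2 z2 r := fun r => A_swap12 hl z2 y2 r
  have q35 : ∀ r : R, A r z2 y2 = - A r y2 z2 := fun r => A_swap23 hr r z2 y2
  have s45 : ∀ r t : R, S z2 z1 r t = S z1 z2 r t := fun r t => S12 z2 z1 r t
  have u45 : ∀ r t : R, S r z2 z1 t = S r z1 z2 t := fun r t => S23 r z2 z1 t
  have p45 : ∀ r : R, A z2 z1 r = - A z1 z2 r := fun r => A_swap12 hl z2 z1 r
  have q45 : ∀ r : R, A r z2 z1 = - A r z1 z2 := fun r => A_swap23 hr r z2 z1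
  simp only [f6, smul_add, smul_sub, E hl hr]
  simp only [s01, u01, p01, q01, s02, u02, p02, q02, s03, u03, p03, q03, s04, u04, p04, q04, s05, u05, p05, q05, s12, u12, p12, q12, s13, u13, p13, q13, s14, u14, p14, q14, s15, u15, p15, q15, s23, u23, p23, q23, s24, u24, p24, q24, s25, u25, p25, q25, s34, u34, p34, q34, s35, u35, p35, q35, s45, u45, p45, q45, S_neg, neg_neg]
  abel

end alt
end ident

end Pool.W415.Alt3
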