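import Mathlib
import Pool.Agent.W415.Alt3.Ident

/-! A commutative alternative algebra over any ring of characteristic 3 in which the
element `f6` does not vanish. -/

set_option autoImplicit false

namespace Pool.W415.Alt3

/-- the table of structure constants, two bits for each of the `64 * 64` products -/
def tabN : Nat :=
  3767953900145716238621504010020040843646272870844797889239444811982808276442917668886583137337555333186812813966965138194220070985247880405465904872398468759049213091502963998315454150162171750103220986725391657369262830851996146633126683595014633887970990916855984051222718509644747322897917015907892500214414521161835802595084991257379819742604698594809388225438168935293654317667835922044147365494464967051275595387815008737856066561212670047944858330501623138914558147424039435686518893519814100333354792360816630480165426050187765171456833020727330599490331696761049215307620515953878112199125060886109555166559868171542074708465975447591715655168647108552855854487239099339254000647140446452580681334484658450268251387088979314728949022906962619498485367461367745571496172281332545448862605740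5875239570086278951762642491920402493268290589786836770843331963171964372013403985503039537383874517257992666193158369591548194796953088909569190369392669604947372363911956537889289941283020765500586792118345056299030273879963086487682617542478351020308927689367205761513842738543670005857005127526226956546031849438868935306593363886919719659674926382784254663587997625915407673307954133469201566038017285376585439931408135538688031121168111144582231988553556692788360616496121287010781567382493582328540802423996195540242250243942027963754330460507992378304383565830289056237521039795297410733319310109298250162420154690299173528301091889407956014462770110726402863900945782665924677223018679342404681557291931843080929255881177005776809581692194857736398196846368783175654863405205930820338056023395394756252028831191730383908818642182263091254033720064241004111112003459537436369542384901097652722378413424380298742627151981779419867397148905381860338514373190940934355739161793640079075039556084712483975085139040587047185258837349423155306284556493563126565201997236337506230483950977328737016919053313792386855066950214941283604432020421546686308420273719523689093959713751777336469182929001422722507101996981453833123660916862010121719789282587975527151402511239533470261298784319609071441540589204250928645851095170463918383614648683393502768852585097633740244088973963434032490750670440337494707766698108289200393413073938184032430338561109161960191696830487283461829718484156069941749145896297053996229696740309775541921098483507750862344145372435237747577534154252573501072343040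

/-- structure constant of the product of the basis elements `S` and `T` (0, 1, or 2 = -1) -/
def cN (S T : Nat) : Nat := if S < 64 ∧ T < 64 then (tabN >>> (2 * (64 * S + T))) % 4 else 0

def allB (n : Nat) (p : Nat → Bool) : Bool := Nat.rec true (fun i r => p i && r) n

lemma allB_spec (p : Nat → Bool) (n : Nat) (h : allB n p = true) : ∀ i, i < n → p i = true := by
  induction n with
  | zero => intro i hi; omega
  | succ n ih =>
    have h' : (p n && allB n p) = true := h
    rw [Bool.and_eq_true] at h'
    intro i hi
    rcases Nat.lt_succ_iff_lt_or_eq.mp hi with h1 | h1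
    · exact ih h'.2 i h1
    · rw [h1]; exact h'.1

def raw (S T : Nat) : Nat := (tabN >>> (2 * (64 * S + T))) % 4

def chk0 : Bool := allB 64 fun S => allB 64 fun T =>
  (Nat.beq (S &&& T) 0 || Nat.beq (raw S T) 0) && Nat.beq (raw S T) (raw T S)

def chk1 : Bool := allB 64 fun S => allB 64 fun T => !(Nat.beq (S &&& T) 0) ||
  allB 64 fun U => Nat.beq ((raw S T * raw (S ||| T) U + raw T S * raw (S ||| T) U +
    2 * (raw T U * raw S (T ||| U)) + 2 * (raw S U * raw T (S ||| U))) % 3) 0

set_option maxRecDepth 100000 in
theorem chk0_eq : chk0 = true := by decide +kernel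

set_option maxRecDepth 100000 in
theorem chk1_eq : chk1 = true := by decide +kernel


lemma raw_zero {S T : Nat} (hS : S < 64) (hT : T < 64) (h : S &&& T ≠ 0) : raw S T = 0 := by
  have := allB_spec _ _ (allB_spec _ _ chk0_eq S hS) T hT
  simp only [Bool.and_eq_true, Bool.or_eq_true] at this
  rcases this.1 with h1 | h1
  · exact absurd (Nat.eq_of_beq_eq_true h1) h
  · exact Nat.eq_of_beq_eq_true h1

lemma raw_comm {S T : Nat} (hS : S < 64) (hT : T < 64) : raw S T = raw T S := by
  have := allB_spec _ _ (allB_spec _ _ chk0_eq S hS) T hT
  simp only [Bool.and_eq_true, Bool.or_eq_true] at this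
  exact Nat.eq_of_beq_eq_true this.2

lemma cN_comm (S T : Nat) : cN S T = cN T S := by
  unfold cN
  by_cases h : S < 64 ∧ T < 64
  · rw [if_pos h, if_pos h.symm]; exact raw_comm h.1 h.2
  · rw [if_neg h, if_neg (fun h' => h h'.symm)]

lemma cN_raw {S T : Nat} (hS : S < 64) (hT : T < 64) : cN S T = raw S T := by
  unfold cN raw; rw [if_pos ⟨hS, hT⟩]

lemma cN_zero {S T : Nat} (h : S &&& T ≠ 0) : cN S T = 0 := by
  unfold cN
  by_cases h' : S < 64 ∧ T < 64
  · rw [if_pos h']; exact raw_zero h'.1 h'.2 h
  · rw [if_neg h']

lemma or_lt {S T : Nat} (hS : S < 64) (hT : T < 64) : S ||| T < 64 :=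
  Nat.or_lt_two_pow (n := 6) hS hT

/-- the linearised alternative law on basis elements -/
theorem cN_alt (S T U : Nat) : (cN S T * cN (S ||| T) U + cN T S * cN (S ||| T) U +
    2 * (cN T U * cN S (T ||| U)) + 2 * (cN S U * cN T (S ||| U))) % 3 = 0 := by
  by_cases hS : S < 64
  swap
  · have h1 : ∀ V, cN S V = 0 := fun V => by unfold cN; rw [if_neg (fun h => hS h.1)]
    have h2 : ∀ V, cN V S = 0 := fun V => by rw [cN_comm]; exact h1 V
    rw [h1, h2, h1, h1]; simp
  by_cases hT : T < 64
  swap
  · have h1 : ∀ V, cN T V = 0 := fun V => by unfold cN; rw [if_neg (fun h => hT h.1)]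
    have h2 : ∀ V, cN V T = 0 := fun V => by rw [cN_comm]; exact h1 V
    rw [h2 S, h1 S, h1, h1]; simp
  by_cases hU : U < 64
  swap
  · have h1 : ∀ V, cN U V = 0 := fun V => by unfold cN; rw [if_neg (fun h => hU h.1)]
    have h2 : ∀ V, cN V U = 0 := fun V => by rw [cN_comm]; exact h1 V
    rw [h2 (S ||| T), h2 T, h2 S]; simp
  by_cases hST : S &&& T = 0
  · rw [cN_raw hS hT, cN_raw (or_lt hS hT) hU, cN_raw hT hS, cN_raw hT hU,
      cN_raw hS (or_lt hT hU), cN_raw hS hU, cN_raw hT (or_lt hS hU)]
    have := allB_spec _ _ (allB_spec _ _ chk1_eq S hS) T hT
    simp only [Bool.or_eq_true, Bool.not_eq_true'] at this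
    rcases this with h | h
    · exact absurd hST (Nat.ne_of_beq_eq_false h)
    · exact Nat.eq_of_beq_eq_true (allB_spec _ _ h U hU)
  · rw [cN_zero hST, cN_comm T S, cN_zero hST,
      cN_zero (S := S) (T := T ||| U) (fun h => hST (by
        rw [Nat.and_or_distrib_left, Nat.or_eq_zero_iff] at h; exact h.1)),
      cN_zero (S := T) (T := S ||| U) (fun h => hST (by
        rw [Nat.and_or_distrib_left, Nat.or_eq_zero_iff] at h; rw [Nat.and_comm]; exact h.1))]
    simp

section alg
variable (k : Type*) [CommRing k]

/-- the model algebra -/
def M : Type _ := ℕ →₀ k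

noncomputable instance : AddCommGroup (M k) := inferInstanceAs (AddCommGroup (ℕ →₀ k))

variable {k}

/-- basis vectors -/
noncomputable def e (S : ℕ) (a : k) : M k := (Finsupp.single S a : ℕ →₀ k)

variable (k)

noncomputable def mulB : (ℕ →₀ k) →ₗ[k] (ℕ →₀ k) →ₗ[k] (ℕ →₀ k) :=
  Finsupp.linearCombination k (fun S =>
    Finsupp.linearCombination k (fun T => Finsupp.single (S ||| T) (cN S T : k)))

noncomputable instance : NonUnitalNonAssocRing (M k) :=
  { (inferInstance : AddCommGroup (M k)) with
    mul := fun a b => mulB k a b
    left_distrib := fun a b c => map_add (mulB k a) b c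
    right_distrib := fun a b c => by
      show mulB k (a + b) c = mulB k a c + mulB k b c
      exact LinearMap.map_add₂ (mulB k) a b c
    zero_mul := fun a => by
      show mulB k 0 a = 0
      exact LinearMap.map_zero₂ (mulB k) a
    mul_zero := fun a => map_zero (mulB k a) }

variable {k}

lemma e_mul (S T : ℕ) (a b : k) : e S a * e T b = e (S ||| T) (a * b * (cN S T : k)) := by
  show mulB k (Finsupp.single S a) (Finsupp.single T b) = _
  simp only [mulB, Finsupp.linearCombination_single, LinearMap.smul_apply, Finsupp.smul_single,
    smul_eq_mul]
  rw [mul_assoc]; rfl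

lemma e_add (S : ℕ) (a b : k) : e S a + e S b = e S (a + b) := (Finsupp.single_add S a b).symm

lemma e_sub (S : ℕ) (a b : k) : e S a - e S b = e S (a - b) := (Finsupp.single_sub S a b).symm

lemma e_zero (S : ℕ) : e S (0 : k) = 0 := Finsupp.single_zero S

@[elab_as_elim]
lemma M_ind {p : M k → Prop} (u : M k) (h0 : p 0) (hadd : ∀ u v, p u → p v → p (u + v))
    (he : ∀ S a, p (e S a)) : p u :=
  Finsupp.induction_linear (motive := p) u h0 hadd he

theorem M_comm (u v : M k) : u * v = v * u := by
  induction u using M_ind with
  | h0 => rw [zero_mul, mul_zero]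
  | hadd u u' h h' => rw [add_mul, mul_add, h, h']
  | he S a =>
    induction v using M_ind with
    | h0 => rw [zero_mul, mul_zero]
    | hadd u u' h h' => rw [add_mul, mul_add, h, h']
    | he T b => rw [e_mul, e_mul, Nat.or_comm, cN_comm, mul_comm a b]

theorem M_lin (h3 : (3 : k) = 0) (u v w : M k) : A u v w + A v u w = 0 := by
  have addu : ∀ u u' v w : M k, A (u + u') v w = A u v w + A u' v w := fun u u' v w => by
    simp only [A, add_mul, mul_add]; abel
  have addv : ∀ u u' v w : M k, A v (u + u') w = A v u w + A v u' w := fun u u' v w => by
    simp only [A, add_mul, mul_add]; abel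
  have addw : ∀ u u' v w : M k, A v w (u + u') = A v w u + A v w u' := fun u u' v w => by
    simp only [A, mul_add]; abel
  induction u using M_ind with
  | h0 => simp [A]
  | hadd u u' h h' =>
    rw [addu, addv]
    have : A u v w + A u' v w + (A v u w + A v u' w) =
      (A u v w + A v u w) + (A u' v w + A v u' w) := by abel
    rw [this, h, h', add_zero]
  | he S a =>
    induction v using M_ind with
    | h0 => simp [A]
    | hadd v v' h h' =>
      rw [addu, addv]
      have : A (e S a) v w + A (e S a) v' w + (A v (e S a) w + A v' (e S a) w) =
        (A (e S a) v w + A v (e S a) w) + (A (e S a) v' w + A v' (e S a) w) := by abel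
      rw [this, h, h', add_zero]
    | he T b =>
      induction w using M_ind with
      | h0 => simp [A]
      | hadd w w' h h' =>
        rw [addw, addw]
        have : A (e S a) (e T b) w + A (e S a) (e T b) w' +
          (A (e T b) (e S a) w + A (e T b) (e S a) w') =
          (A (e S a) (e T b) w + A (e T b) (e S a) w) +
          (A (e S a) (e T b) w' + A (e T b) (e S a) w') := by abel
        rw [this, h, h', add_zero]
      | he U c =>
        simp only [A, e_mul]
        rw [Nat.or_comm T S, Nat.or_assoc S T U, show T ||| (S ||| U) = S ||| (T ||| U) by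
          rw [← Nat.or_assoc, ← Nat.or_assoc, Nat.or_comm T S], e_sub, e_sub, e_add]
        have hq := Nat.dvd_of_mod_eq_zero (cN_alt S T U)
        obtain ⟨q, hq⟩ := hq
        have hq' := congrArg (Nat.cast : ℕ → k) hq
        push_cast at hq'
        rw [h3, zero_mul] at hq'
        have : a * b * (cN S T : k) * c * (cN (S ||| T) U : k) -
          a * (b * c * (cN T U : k)) * (cN S (T ||| U) : k) +
          (b * a * (cN T S : k) * c * (cN (S ||| T) U : k) -
          b * (a * c * (cN S U : k)) * (cN T (S ||| U) : k)) = 0 := by
          linear_combination (a * b * c) * hq' -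
            (a * b * c * ((cN T U : k) * (cN S (T ||| U) : k) +
              (cN S U : k) * (cN T (S ||| U) : k))) * h3
        rw [this, e_zero]

lemma three_M (h3 : (3 : k) = 0) (u : M k) : u + u + u = 0 := by
  induction u using M_ind with
  | h0 => simp
  | hadd u u' h h' =>
    have : u + u' + (u + u') + (u + u') = (u + u + u) + (u' + u' + u') := by abel
    rw [this, h, h', add_zero]
  | he S a =>
    rw [e_add, e_add, show a + a + a = 3 * a by ring, h3, zero_mul, e_zero]

theorem M_left (h3 : (3 : k) = 0) (u v : M k) : (u * u) * v = u * (u * v) := by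
  have h := M_lin h3 u u v
  have h' := three_M h3 (A u u v)
  rw [h, zero_add] at h'
  exact sub_eq_zero.mp h'

theorem M_right (h3 : (3 : k) = 0) (u v : M k) : (v * u) * u = v * (u * u) := by
  rw [M_comm v u, M_comm (u * v) u, M_comm v (u * u), M_left h3]

lemma J_e (S T : ℕ) (a b : k) : J (e S a) (e T b) = e (S ||| T) (2 * a * b * (cN S T : k)) := by
  simp only [J, e_mul]
  rw [Nat.or_comm T S, cN_comm T S, e_add]
  exact congrArg (e (S ||| T)) (by ring)

lemma A_e (S T U : ℕ) (a b c : k) : A (e S a) (e T b) (e U c) = e (S ||| T ||| U)
    (a * b * c * ((cN S T : k) * (cN (S ||| T) U : k) - (cN T U : k) * (cN S (T ||| U) : k))) := by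
  simp only [A, e_mul]
  rw [← Nat.or_assoc, e_sub]
  exact congrArg (e (S ||| T ||| U)) (by ring)

theorem f6_ne (h3 : (3 : k) = 0) :
    f6 (e 1 1) (e 2 1) (e 4 1) (e 8 1) (e 16 1) (e 32 1) = e 63 (1 : k) := by
  have c1_4 : cN 1 4 = 1 := by decide +kernel
  have c1_8 : cN 1 8 = 1 := by decide +kernel
  have c1_16 : cN 1 16 = 1 := by decide +kernel
  have c1_32 : cN 1 32 = 1 := by decide +kernel
  have c2_4 : cN 2 4 = 1 := by decide +kernel
  have c2_8 : cN 2 8 = 1 := by decide +kernel
  have c2_16 : cN 2 16 = 1 := by decide +kernel
  have c2_32 : cN 2 32 = 1 := by decide +kernel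
  have c4_16 : cN 4 16 = 1 := by decide +kernel
  have c4_32 : cN 4 32 = 1 := by decide +kernel
  have c5_18 : cN 5 18 = 2 := by decide +kernel
  have c5_34 : cN 5 34 = 2 := by decide +kernel
  have c5_58 : cN 5 58 = 1 := by decide +kernel
  have c6_17 : cN 6 17 = 1 := by decide +kernel
  have c6_33 : cN 6 33 = 1 := by decide +kernel
  have c6_57 : cN 6 57 = 2 := by decide +kernel
  have c8_16 : cN 8 16 = 1 := by decide +kernel
  have c8_32 : cN 8 32 = 1 := by decide +kernel
  have c9_18 : cN 9 18 = 2 := by decide +kernel
  have c9_34 : cN 9 34 = 2 := by decide +kernel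
  have c9_54 : cN 9 54 = 2 := by decide +kernel
  have c10_17 : cN 10 17 = 1 := by decide +kernel
  have c10_33 : cN 10 33 = 1 := by decide +kernel
  have c10_53 : cN 10 53 = 1 := by decide +kernel
  have c17_36 : cN 17 36 = 1 := by decide +kernel
  have c17_40 : cN 17 40 = 1 := by decide +kernel
  have c18_36 : cN 18 36 = 1 := by decide +kernel
  have c18_40 : cN 18 40 = 1 := by decide +kernel
  have c23_40 : cN 23 40 = 1 := by decide +kernel
  have c27_36 : cN 27 36 = 2 := by decide +kernel
  have c33_20 : cN 33 20 = 2 := by decide +kernel
  have c33_24 : cN 33 24 = 2 := by decide +kernel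
  have c34_20 : cN 34 20 = 2 := by decide +kernel
  have c34_24 : cN 34 24 = 2 := by decide +kernel
  have c39_24 : cN 39 24 = 2 := by decide +kernel
  have c43_20 : cN 43 20 = 1 := by decide +kernel
  simp only [f6, J_e, A_e, Nat.reduceOr, e_sub, e_add, c1_4, c1_8, c1_16, c1_32, c2_4, c2_8, c2_16, c2_32, c4_16, c4_32, c5_18, c5_34, c5_58, c6_17, c6_33, c6_57, c8_16, c8_32, c9_18, c9_34, c9_54, c10_17, c10_33, c10_53, c17_36, c17_40, c18_36, c18_40, c23_40, c27_36, c33_20, c33_24, c34_20, c34_24, c39_24, c43_20]
  refine congrArg (e 63) ?_
  push_cast
  norm_num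
  linear_combination (-11) * h3

end alg

end Pool.W415.Alt3
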