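import Mathlib
import Pool.Agent.W415.Alt3.Ident
import Pool.Agent.W415.Alt3.Model

/-! The free alternative algebra and its 3-torsion. -/

set_option autoImplicit false

namespace Pool.W415.Alt3

universe u v

/-- The ideal of the free nonassociative `Φ`-algebra on `X` generated by all elements `(f,f,g)` and
`(g,f,f)`: the smallest `Φ`-submodule containing these elements and closed under multiplication
by arbitrary elements on both sides. -/
noncomputable def altIdeal (Φ : Type u) [CommRing Φ] (X : Type v) :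
    Submodule Φ (FreeNonUnitalNonAssocAlgebra Φ X) :=
  sInf {I | (∀ f g, (f * f) * g - f * (f * g) ∈ I) ∧ (∀ f g, (g * f) * f - g * (f * f) ∈ I) ∧
    ∀ a ∈ I, ∀ b, a * b ∈ I ∧ b * a ∈ I}

/-- The free alternative `Φ`-algebra on `X`. -/
abbrev Alt (Φ : Type u) [CommRing Φ] (X : Type v) : Type (max u v) :=
  FreeNonUnitalNonAssocAlgebra Φ X ⧸ altIdeal Φ X

section
variable {Φ : Type u} [CommRing Φ] {X : Type v}

lemma altIdeal_left (f g : FreeNonUnitalNonAssocAlgebra Φ X) :
    (f * f) * g - f * (f * g) ∈ altIdeal Φ X :=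
  Submodule.mem_sInf.mpr fun _ hI => hI.1 f g

lemma altIdeal_right (f g : FreeNonUnitalNonAssocAlgebra Φ X) :
    (g * f) * f - g * (f * f) ∈ altIdeal Φ X :=
  Submodule.mem_sInf.mpr fun _ hI => hI.2.1 f g

lemma altIdeal_mul {a : FreeNonUnitalNonAssocAlgebra Φ X} (ha : a ∈ altIdeal Φ X)
    (b : FreeNonUnitalNonAssocAlgebra Φ X) : a * b ∈ altIdeal Φ X ∧ b * a ∈ altIdeal Φ X :=
  ⟨Submodule.mem_sInf.mpr fun I hI => (hI.2.2 a (Submodule.mem_sInf.mp ha I hI) b).1,
   Submodule.mem_sInf.mpr fun I hI => (hI.2.2 a (Submodule.mem_sInf.mp ha I hI) b).2⟩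

variable (Φ X)

/-- the ring congruence of `altIdeal` -/
def con : RingCon (FreeNonUnitalNonAssocAlgebra Φ X) where
  r a b := a - b ∈ altIdeal Φ X
  iseqv :=
    { refl := fun a => by simp
      symm := fun {a b} h => by
        have := (altIdeal Φ X).neg_mem h
        rwa [neg_sub] at this
      trans := fun {a b c} h h' => by
        have := (altIdeal Φ X).add_mem h h'
        rwa [sub_add_sub_cancel] at this }
  mul' {a b c d} h h' := by
    have h1 := (altIdeal_mul h c).1
    have h2 := (altIdeal_mul h' b).2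
    have := (altIdeal Φ X).add_mem h1 h2
    rwa [sub_mul, mul_sub, sub_add_sub_cancel] at this
  add' {a b c d} h h' := by
    have := (altIdeal Φ X).add_mem h h'
    rwa [sub_add_sub_comm] at this

/-- the quotient ring -/
abbrev Q := (con Φ X).Quotient

lemma con_iff (a b : FreeNonUnitalNonAssocAlgebra Φ X) :
    (a : Q Φ X) = (b : Q Φ X) ↔ a - b ∈ altIdeal Φ X := RingCon.eq (con Φ X)

lemma Q_left (a b : Q Φ X) : (a * a) * b = a * (a * b) := by
  induction a using Quotient.inductionOn' with | h a =>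
  induction b using Quotient.inductionOn' with | h b =>
  exact (con_iff Φ X _ _).mpr (altIdeal_left a b)

lemma Q_right (a b : Q Φ X) : (b * a) * a = b * (a * a) := by
  induction a using Quotient.inductionOn' with | h a =>
  induction b using Quotient.inductionOn' with | h b =>
  exact (con_iff Φ X _ _).mpr (altIdeal_right a b)

theorem six_mem (x1 x2 y1 y2 z1 z2 : FreeNonUnitalNonAssocAlgebra Φ X) :
    (6 : ℤ) • f6 x1 x2 y1 y2 z1 z2 ∈ altIdeal Φ X := by
  have h := six_f6 (Q_left Φ X) (Q_right Φ X) (x1 : Q Φ X) x2 y1 y2 z1 z2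
  have h' : (((6 : ℤ) • f6 x1 x2 y1 y2 z1 z2 : FreeNonUnitalNonAssocAlgebra Φ X) : Q Φ X) =
    ((0 : FreeNonUnitalNonAssocAlgebra Φ X) : Q Φ X) := h
  rw [con_iff, sub_zero] at h'
  exact h'

end


section model
variable {Φ : Type u} [CommRing Φ] {k : Type u} [CommRing k] [Algebra Φ k] {X : Type v}

noncomputable instance instModM : Module Φ (M k) := inferInstanceAs (Module Φ (ℕ →₀ k))

lemma mulB_smul_left (a : Φ) (u v : ℕ →₀ k) : mulB k (a • u) v = a • mulB k u v := by
  rw [LinearMap.map_smul_of_tower, LinearMap.smul_apply]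

lemma mulB_smul_right (a : Φ) (u v : ℕ →₀ k) : mulB k u (a • v) = a • mulB k u v := by
  rw [LinearMap.map_smul_of_tower]

instance : IsScalarTower Φ (M k) (M k) := ⟨fun a u v => mulB_smul_left a u v⟩

instance : SMulCommClass Φ (M k) (M k) := ⟨fun a u v => (mulB_smul_right a u v).symm⟩

/-- coordinate of an element of the model -/
noncomputable def coord (S : ℕ) (u : M k) : k := Finsupp.lapply (R := k) S u

lemma coord_e (S : ℕ) (a : k) : coord S (e S a) = a := Finsupp.single_eq_same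

variable (Φ k)

open Classical in
/-- the generators -/
noncomputable def gen (x : Fin 6 ↪ X) (y : X) : M k :=
  if h : ∃ i, x i = y then e (2 ^ (h.choose : ℕ)) 1 else 0

lemma gen_apply (x : Fin 6 ↪ X) (i : Fin 6) : gen k x (x i) = e (2 ^ (i : ℕ)) 1 := by
  unfold gen
  have h : ∃ j, x j = x i := ⟨i, rfl⟩
  rw [dif_pos h]
  have : h.choose = i := x.injective h.choose_spec
  rw [this]

/-- the evaluation homomorphism -/
noncomputable def phi (x : Fin 6 ↪ X) : FreeNonUnitalNonAssocAlgebra Φ X →ₙₐ[Φ] M k :=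
  FreeNonUnitalNonAssocAlgebra.lift Φ (gen k x)

lemma phi_of (x : Fin 6 ↪ X) (i : Fin 6) :
    phi Φ k x (FreeNonUnitalNonAssocAlgebra.of Φ (x i)) = e (2 ^ (i : ℕ)) 1 := by
  rw [phi, FreeNonUnitalNonAssocAlgebra.lift_of_apply, gen_apply]

/-- the kernel of `phi` -/
noncomputable def kerphi (x : Fin 6 ↪ X) : Submodule Φ (FreeNonUnitalNonAssocAlgebra Φ X) where
  carrier := {a | phi Φ k x a = 0}
  add_mem' := fun {a b} ha hb => by
    show phi Φ k x (a + b) = 0
    rw [map_add, show phi Φ k x a = 0 from ha, show phi Φ k x b = 0 from hb, add_zero]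
  zero_mem' := map_zero _
  smul_mem' := fun c a ha => by
    show phi Φ k x (c • a) = 0
    rw [map_smul, show phi Φ k x a = 0 from ha, smul_zero]

lemma altIdeal_le (h3 : (3 : k) = 0) (x : Fin 6 ↪ X) : altIdeal Φ X ≤ kerphi Φ k x := by
  refine sInf_le ⟨fun f g => ?_, fun f g => ?_, fun a ha b => ⟨?_, ?_⟩⟩
  · show phi Φ k x _ = 0
    rw [map_sub, map_mul, map_mul, map_mul, map_mul, M_left h3, sub_self]
  · show phi Φ k x _ = 0
    rw [map_sub, map_mul, map_mul, map_mul, map_mul, M_right h3, sub_self]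
  · show phi Φ k x _ = 0
    rw [map_mul, show phi Φ k x a = 0 from ha, zero_mul]
  · show phi Φ k x _ = 0
    rw [map_mul, show phi Φ k x a = 0 from ha, mul_zero]

/-- the explicit element in the free nonassociative algebra -/
noncomputable def tt (x : Fin 6 ↪ X) : FreeNonUnitalNonAssocAlgebra Φ X :=
  f6 (FreeNonUnitalNonAssocAlgebra.of Φ (x 0)) (FreeNonUnitalNonAssocAlgebra.of Φ (x 1))
    (FreeNonUnitalNonAssocAlgebra.of Φ (x 2)) (FreeNonUnitalNonAssocAlgebra.of Φ (x 3))
    (FreeNonUnitalNonAssocAlgebra.of Φ (x 4)) (FreeNonUnitalNonAssocAlgebra.of Φ (x 5))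

lemma phi_A (x : Fin 6 ↪ X) (a b c : FreeNonUnitalNonAssocAlgebra Φ X) :
    phi Φ k x (A a b c) = A (phi Φ k x a) (phi Φ k x b) (phi Φ k x c) := by
  simp only [A, map_sub, map_mul]

lemma phi_J (x : Fin 6 ↪ X) (a b : FreeNonUnitalNonAssocAlgebra Φ X) :
    phi Φ k x (J a b) = J (phi Φ k x a) (phi Φ k x b) := by
  simp only [J, map_add, map_mul]

lemma phi_tt (h3 : (3 : k) = 0) (x : Fin 6 ↪ X) : phi Φ k x (tt Φ x) = e 63 1 := by
  rw [← f6_ne h3]
  simp only [tt, f6, map_sub, map_add, phi_A, phi_J, phi_of]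
  norm_num

/-- coordinate 63 of `phi` as a linear map on the free alternative algebra -/
noncomputable def ell (h3 : (3 : k) = 0) (x : Fin 6 ↪ X) : Alt Φ X →ₗ[Φ] k :=
  (altIdeal Φ X).liftQ
    { toFun := fun a => coord 63 (phi Φ k x a)
      map_add' := fun a b => by rw [map_add]; rfl
      map_smul' := fun c a => by rw [map_smul]; rfl }
    (fun a ha => by
      have : phi Φ k x a = 0 := altIdeal_le Φ k h3 x ha
      show coord 63 (phi Φ k x a) = 0
      rw [this]; rfl)

lemma ell_mk (h3 : (3 : k) = 0) (x : Fin 6 ↪ X) :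
    ell Φ k h3 x ((altIdeal Φ X).mkQ (tt Φ x)) = 1 := by
  show coord 63 (phi Φ k x (tt Φ x)) = 1
  rw [phi_tt Φ k h3, coord_e]

end model

section final
variable (Φ : Type u) [CommRing Φ] {X : Type v} (x : Fin 6 ↪ X)

lemma six_tt : (6 : Φ) • (altIdeal Φ X).mkQ (tt Φ x) = 0 := by
  rw [← map_smul]
  have := six_mem Φ X (FreeNonUnitalNonAssocAlgebra.of Φ (x 0))
    (FreeNonUnitalNonAssocAlgebra.of Φ (x 1))
    (FreeNonUnitalNonAssocAlgebra.of Φ (x 2)) (FreeNonUnitalNonAssocAlgebra.of Φ (x 3))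
    (FreeNonUnitalNonAssocAlgebra.of Φ (x 4)) (FreeNonUnitalNonAssocAlgebra.of Φ (x 5))
  rw [← Int.cast_smul_eq_zsmul Φ] at this
  have h6 : ((6 : ℤ) : Φ) = 6 := by norm_num
  rw [h6] at this
  exact (Submodule.Quotient.mk_eq_zero _).mpr this

lemma three_quot : (3 : Φ ⧸ Ideal.span {(3 : Φ)}) = 0 := by
  have : (Ideal.Quotient.mk (Ideal.span {(3 : Φ)})) 3 = 0 :=
    Ideal.Quotient.eq_zero_iff_mem.mpr (Ideal.mem_span_singleton_self 3)
  rw [← map_ofNat (Ideal.Quotient.mk (Ideal.span {(3 : Φ)})) 3]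
  exact this

theorem two_tt_ne (h : ¬ IsUnit (3 : Φ)) : (2 : Φ) • (altIdeal Φ X).mkQ (tt Φ x) ≠ 0 := by
  intro h0
  have h3 := three_quot Φ
  have h1 := congrArg (ell Φ (Φ ⧸ Ideal.span {(3 : Φ)}) h3 x) h0
  rw [map_smul, ell_mk, map_zero] at h1
  have h2 : (Ideal.Quotient.mk (Ideal.span {(3 : Φ)})) 2 = 0 := by
    rw [← h1, Algebra.smul_def, mul_one]; rfl
  rw [Ideal.Quotient.eq_zero_iff_mem, Ideal.mem_span_singleton'] at h2
  obtain ⟨a, ha⟩ := h2
  exact h (IsUnit.of_mul_eq_one (1 - a) (by linear_combination -ha))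

include x in
theorem proj_imp (h : Module.Projective Φ (Alt Φ X)) :
    ∃ e d : Φ, e * e = e ∧ 3 * e = 0 ∧ 1 - e = 3 * d := by
  have h3 := three_quot Φ
  obtain ⟨g, hg⟩ := Module.projective_lifting_property
    (Submodule.mkQ (Ideal.span {(3 : Φ)})) (ell Φ (Φ ⧸ Ideal.span {(3 : Φ)}) h3 x)
    (Submodule.mkQ_surjective _)
  have h1 := LinearMap.congr_fun hg ((altIdeal Φ X).mkQ (tt Φ x))
  rw [ell_mk, LinearMap.comp_apply] at h1
  set t := g ((altIdeal Φ X).mkQ (tt Φ x)) with ht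
  have h6 : 6 * t = 0 := by
    have := congrArg g (six_tt Φ x)
    rw [map_smul, map_zero] at this
    exact this
  have h2 : (Ideal.Quotient.mk (Ideal.span {(3 : Φ)})) (1 - t) = 0 := by
    rw [map_sub, map_one, sub_eq_zero]; exact h1.symm
  rw [Ideal.Quotient.eq_zero_iff_mem, Ideal.mem_span_singleton'] at h2
  obtain ⟨a, ha⟩ := h2
  have e3 : 3 * (-2 * t) = 0 := by linear_combination -h6
  have e1 : 1 - (-2 * t) = 3 * (1 - 2 * a) := by linear_combination 2 * ha
  refine ⟨-2 * t, 1 - 2 * a, ?_, e3, e1⟩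
  linear_combination (-2 * t) * (-e1) - (1 - 2 * a) * e3

end final

end Pool.W415.Alt3
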